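import Pool.Agent.W_MP_97b08f_lc.NoHull
import Pool.Agent.W_MP_97b08f_lc.HullCH

open Cardinal Set MeasureTheory
open Pool.Agent.W_MP_97b08f_lc

namespace Pool.Agent.Results.MP_97b08f_lc.HullIffCH

/-- Assume Martin's Axiom and let `F` be a family of Lebesgue measurable subsets of the line which
contains all null sets and all open sets (for instance the family of all Lebesgue measurable
sets). Then there is a monotone Borel hull operation on `F` if and only if the continuum
hypothesis holds. -/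
theorem result (hMA : MartinsAxiom) (F : Set (Set ℝ))
    (hF : ∀ M ∈ F, NullMeasurableSet M volume)
    (hnull : ∀ N : Set ℝ, volume N = 0 → N ∈ F)
    (hopen : ∀ U : Set ℝ, IsOpen U → U ∈ F) :
    (∃ ψ : Set ℝ → Set ℝ, IsMonotoneBorelHull F ψ) ↔ (𝔠 : Cardinal.{0}) = ℵ_ 1 := by
  constructor
  · rintro ⟨ψ, hψ⟩
    by_contra hne
    have hle : (ℵ_ 1 : Cardinal.{0}) ≤ 𝔠 := aleph_one_le_continuum
    exact no_hull hMA (lt_of_le_of_ne hle (fun h => hne h.symm)) F hnull hopen ψ hψ
  · intro h
    obtain ⟨ψ, h1, h2⟩ := hull_of_CH h.symm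
    exact ⟨ψ, fun M hM => h1 M (hF M hM), fun M hM M' hM' => h2 M (hF M hM) M' (hF M' hM')⟩

end Pool.Agent.Results.MP_97b08f_lc.HullIffCH
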